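import Pool.Agent.X264.FL.Main

/-!
# Termination of flips for products
-/

set_option autoImplicit false

open Pool.Agent.X264.FL

namespace Pool.Agent.Results.MP_a06248_ag.Products

universe u

/-- **Flips on products.** Let `X` and `Y` be normal projective `ℚ`-Gorenstein varieties with terminal
singularities, `H¹(Y, O_Y) = 0`. Every sequence of flips starting from `X × Y` is finite if and only if
every sequence of flips starting from `X` and every sequence of flips starting from `Y` is finite. -/
theorem result (T : Theory.{u}) (hT : T.IsKnown) (X Y : T.Pr) (hY : T.Reg Y) :
    T.Terminates (T.prod X Y) ↔ T.Terminates X ∧ T.Terminates Y :=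
  Theory.terminates_prod hT hY

end Pool.Agent.Results.MP_a06248_ag.Products
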